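import Pool.Agent.Helper85.MU.Stmts2

/-!
# MU, module TRF2: the transfer at a Frobenius element, all places over `p` occur
-/

set_option autoImplicit false
set_option maxHeartbeats 800000

open NumberField

namespace MU

section

variable {F : Type} [Field F] [NumberField F]

/-- the action of `g` on the algebraic integers -/
noncomputable def trf_hom (g : GalQ F) : Zb F →+* Zb F :=
  MulSemiringAction.toRingHom (GalQ F) (𝓞 (AlgebraicClosure F)) g

theorem trf_hom_coe (g : GalQ F) (x : Zb F) :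
    ((trf_hom g x : Zb F) : AlgebraicClosure F) = g (x : AlgebraicClosure F) := rfl

theorem trf_hom_mul (g g' : GalQ F) (x : Zb F) : trf_hom (g * g') x = trf_hom g (trf_hom g' x) :=
  Subtype.ext rfl

theorem trf_hom_one (x : Zb F) : trf_hom (1 : GalQ F) x = x := Subtype.ext rfl

theorem trf_cong_pow {p : ℕ} {𝔓 : Ideal (Zb F)} {φ : GalQ F} (hφ : CongPow 𝔓 p φ) (k : ℕ)
    (x : Zb F) : trf_hom (φ ^ k) x - x ^ (p ^ k) ∈ 𝔓 := by
  induction k with
  | zero => rw [pow_zero, trf_hom_one, pow_zero, pow_one, sub_self]; exact 𝔓.zero_mem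
  | succ k ih =>
    have h1 : trf_hom (φ ^ (k + 1)) x = trf_hom φ (trf_hom (φ ^ k) x) := by
      rw [← trf_hom_mul, ← pow_succ']
    have h2 : trf_hom φ (trf_hom (φ ^ k) x) - (trf_hom (φ ^ k) x) ^ p ∈ 𝔓 :=
      hφ _ _ (trf_hom_coe φ _)
    have h3 : (trf_hom (φ ^ k) x) ^ p - (x ^ (p ^ k)) ^ p ∈ 𝔓 := by
      obtain ⟨c, hc⟩ := sub_dvd_pow_sub_pow (trf_hom (φ ^ k) x) (x ^ (p ^ k)) p
      rw [hc]
      exact 𝔓.mul_mem_right c ih
    rw [h1]
    have h4 : trf_hom φ (trf_hom (φ ^ k) x) - x ^ p ^ (k + 1) =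
        (trf_hom φ (trf_hom (φ ^ k) x) - (trf_hom (φ ^ k) x) ^ p) +
          ((trf_hom (φ ^ k) x) ^ p - (x ^ (p ^ k)) ^ p) := by
      rw [← pow_mul, ← pow_succ]
      ring
    rw [h4]
    exact 𝔓.add_mem h2 h3

/-- a Frobenius element stabilizes the prime -/
theorem trf_stab {p : ℕ} (hp : p.Prime) {𝔓 : Ideal (Zb F)} (h𝔓 : Over p 𝔓) {φ : GalQ F}
    (hφ : CongPow 𝔓 p φ) (x : Zb F) : trf_hom φ x ∈ 𝔓 ↔ x ∈ 𝔓 := by
  have h1 : trf_hom φ x - x ^ p ∈ 𝔓 := hφ _ _ (trf_hom_coe φ _)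
  constructor
  · intro h
    have h2 : x ^ p ∈ 𝔓 := by
      have := 𝔓.sub_mem h h1
      rwa [sub_sub_cancel] at this
    exact h𝔓.1.mem_of_pow_mem p h2
  · intro h
    have h2 : x ^ p ∈ 𝔓 := Ideal.pow_mem_of_mem 𝔓 h p hp.pos
    have := 𝔓.add_mem h1 h2
    rwa [sub_add_cancel] at this

theorem trf_stab_zpow {p : ℕ} (hp : p.Prime) {𝔓 : Ideal (Zb F)} (h𝔓 : Over p 𝔓) {φ : GalQ F}
    (hφ : CongPow 𝔓 p φ) (j : ℤ) (x : Zb F) : trf_hom (φ ^ j) x ∈ 𝔓 ↔ x ∈ 𝔓 := by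
  have hn : ∀ (k : ℕ) (x : Zb F), trf_hom (φ ^ k) x ∈ 𝔓 ↔ x ∈ 𝔓 := by
    intro k
    induction k with
    | zero => intro x; rw [pow_zero, trf_hom_one]
    | succ k ih =>
      intro x
      rw [pow_succ, trf_hom_mul, ih, trf_stab hp h𝔓 hφ]
  obtain ⟨k, rfl | rfl⟩ := j.eq_nat_or_neg
  · rw [zpow_natCast]; exact hn k x
  · have h1 := hn k (trf_hom (φ ^ (-(k : ℤ))) x)
    rw [← trf_hom_mul, ← zpow_natCast, ← zpow_add, add_neg_cancel, zpow_zero, trf_hom_one] at h1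
    exact h1.symm

end

theorem st_TRF2 (hFRE : ST_FRE) : ST_TRF2 := by
  classical
  intro F _ _ H e hH _ p hp 𝔓 h𝔓 φ hφ
  let Q := Quotient (MulAction.orbitRel (Subgroup.zpowers φ) (GalQ F ⧸ H))
  have hfinG : Finite (GalQ F ⧸ H) := Subgroup.finite_quotient_of_finiteIndex
  have hfinQ : Finite Q := Quotient.finite _
  let : Fintype Q := Fintype.ofFinite _
  -- the data indexed by the orbits
  let γ : Q → GalQ F := fun q => q.out.out
  let kk : Q → ℕ := fun q => Function.minimalPeriod (φ • ·) q.out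
  let hh : Q → H := fun q => ⟨q.out.out⁻¹ * φ ^ Function.minimalPeriod (φ • ·) q.out * q.out.out,
            QuotientGroup.out_conj_pow_minimalPeriod_mem H φ q.out⟩
  let xx : Q → Gal F := fun q => e.symm (hh q)
  let 𝔮 : Q → Ideal (Zb F) := fun q => 𝔓.comap (trf_hom (γ q))
  let E : Fin (Fintype.card Q) ≃ Q := (Fintype.equivFin Q).symm
  refine ⟨Fintype.card Q, fun i => xx (E i), fun i => kk (E i), fun i => 𝔮 (E i), ⟨?_, ?_⟩, ?_, ?_⟩
  · intro i
    set q := E i with hq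
    refine ⟨⟨?_, ?_⟩, ?_, ?_⟩
    · have h0 : Ideal.IsPrime (𝔓 : Ideal (Zb F)) := h𝔓.1
      exact Ideal.IsPrime.comap (trf_hom (γ q))
    · change trf_hom (γ q) (p : Zb F) ∈ 𝔓
      rw [map_natCast]
      exact h𝔓.2
    · have h1 : NeZero (Function.minimalPeriod (φ • ·) q.out) := inferInstance
      exact Nat.one_le_iff_ne_zero.2 h1.out
    · suffices hs : ∀ x y : Zb F, (y : AlgebraicClosure F) = xx q (x : AlgebraicClosure F) →
          trf_hom (γ q) (y - x ^ p ^ kk q) ∈ 𝔓 from fun x y hxy => hs x y hxy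
      intro x y hxy
      have h1 : y = trf_hom ((γ q)⁻¹ * φ ^ kk q * γ q) x := by
        apply Subtype.ext
        rw [trf_hom_coe, hxy, ← hH.1 (xx q) (x : AlgebraicClosure F)]
        have h2 : e (xx q) = hh q := e.apply_symm_apply _
        rw [h2]
      have h3 : trf_hom (γ q) y = trf_hom (φ ^ kk q) (trf_hom (γ q) x) := by
        rw [h1, ← trf_hom_mul, ← trf_hom_mul]
        congr 1
        group
      rw [map_sub, map_pow, h3]
      exact trf_cong_pow hφ (kk q) (trf_hom (γ q) x)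
  · have h1 : H.index = ∑ q : Q, kk q := Subgroup.index_eq_sum_minimalPeriod H φ
    rw [← hH.2.2.2.2, h1]
    exact E.sum_comp kk
  · intro 𝔓' h𝔓'
    obtain ⟨g, hg⟩ := (hFRE F p hp).2 𝔓' 𝔓 h𝔓' h𝔓
    let q : Q := Quotient.mk _ (QuotientGroup.mk g : GalQ F ⧸ H)
    have hq : MulAction.orbitRel (Subgroup.zpowers φ) (GalQ F ⧸ H) q.out
        (QuotientGroup.mk g : GalQ F ⧸ H) := Quotient.exact (Quotient.out_eq q)
    rw [MulAction.orbitRel_apply, MulAction.mem_orbit_symm] at hq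
    obtain ⟨⟨s, hs⟩, hs'⟩ := hq
    obtain ⟨j, rfl⟩ := Subgroup.mem_zpowers_iff.1 hs
    have h1 : (QuotientGroup.mk (φ ^ j * γ q) : GalQ F ⧸ H) = QuotientGroup.mk g := by
      rw [← hs']
      have h2 : (q.out : GalQ F ⧸ H) = QuotientGroup.mk (γ q) := (QuotientGroup.out_eq' _).symm
      conv_rhs => rw [h2]
      rfl
    rw [QuotientGroup.eq] at h1
    let u : H := ⟨(φ ^ j * γ q)⁻¹ * g, h1⟩
    refine ⟨E.symm q, e.symm u, fun x y hxy => ?_⟩
    have h3 : y = trf_hom (u : GalQ F) x := by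
      apply Subtype.ext
      rw [trf_hom_coe, hxy, ← hH.1 (e.symm u) (x : AlgebraicClosure F), e.apply_symm_apply]
    rw [hg x (trf_hom g x) (trf_hom_coe g x)]
    have h4 : trf_hom g x = trf_hom (φ ^ j) (trf_hom (γ q) y) := by
      rw [h3, ← trf_hom_mul, ← trf_hom_mul]
      congr 1
      simp only [u]
      group
    rw [h4, trf_stab_zpow hp h𝔓 hφ]
    change _ ↔ y ∈ 𝔮 (E (E.symm q))
    rw [Equiv.apply_symm_apply]
    exact Iff.rfl
  · intro A _ ε
    rw [MonoidHom.transfer_eq_prod_quotient_orbitRel_zpowers_quot]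
    exact (E.prod_comp (fun q => ε (xx q))).symm

/-- TRF is the special case without the covering property. -/
theorem trf_of_trf2 (h : ST_TRF2) : ST_TRF := by
  intro F _ _ H e hH _ p hp 𝔓 h𝔓 φ hφ
  obtain ⟨r, x, k, 𝔔, h1, -, h2⟩ := h F H e hH p hp 𝔓 h𝔓 φ hφ
  exact ⟨r, x, k, 𝔔, h1, h2⟩

end MU
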